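import Pool.Agent.Helper12.RQ.Goals

/-!
# Packet W of MP_a2585e_an: near-optimal functions which decrease along the rays
-/

set_option autoImplicit false

open MeasureTheory Set Filter Topology Metric

open scoped ENNReal NNReal ContDiff

namespace Pool.Agent.Helper31.RQ

open Pool.Agent.Helper12.RQ

/-- truncation does not increase the norm of the derivative. -/
lemma fderiv_trunc {n : ℕ} (g w : E n → ℝ) (hg : ContDiff ℝ ∞ g)
    (hw : ∀ y z, |w y - w z| ≤ |g y - g z|) (x : E n) :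
    ‖fderiv ℝ w x‖ ≤ ‖fderiv ℝ g x‖ := by
  by_cases hd : DifferentiableAt ℝ w x
  · refine le_of_forall_gt fun K hK => ?_
    have hK0 : 0 ≤ K := (norm_nonneg _).trans hK.le
    obtain ⟨K', hK1, hK2⟩ := exists_between hK
    have hK'0 : 0 ≤ K' := (norm_nonneg _).trans hK1.le
    have hs : HasStrictFDerivAt g (fderiv ℝ g x) x :=
      hg.contDiffAt.hasStrictFDerivAt (by simp)
    obtain ⟨s, hs1, hs2⟩ := hs.exists_lipschitzOnWith_of_nnnorm_lt ⟨K', hK'0⟩ (by exact_mod_cast hK1)
    refine lt_of_le_of_lt ?_ hK2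
    refine hd.hasFDerivAt.le_of_lip' hK'0 ?_
    filter_upwards [hs1] with y hy
    have h1 := hs2.dist_le_mul y hy x (mem_of_mem_nhds hs1)
    rw [Real.dist_eq, dist_eq_norm] at h1
    rw [Real.norm_eq_abs]
    exact (hw y x).trans h1
  · rw [fderiv_zero_of_not_differentiableAt hd, norm_zero]
    exact norm_nonneg _

/-- the truncation of `g`. -/
noncomputable def tr {n : ℕ} (g : E n → ℝ) (y : E n) : ℝ := min 1 (max 0 (g y))

lemma tr_diff {n : ℕ} (g : E n → ℝ) (y z : E n) : |tr g y - tr g z| ≤ |g y - g z| := by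
  unfold tr
  refine (abs_min_sub_min_le_max _ _ _ _).trans ?_
  rw [sub_self, abs_zero, max_eq_right (abs_nonneg _)]
  refine (abs_max_sub_max_le_max _ _ _ _).trans ?_
  rw [sub_self, abs_zero, max_eq_right (abs_nonneg _)]

lemma choose_eta (p S ε : ℝ) (hε : 0 < ε) :
    ∃ η : ℝ, 0 < η ∧ (1 + η) ^ p * (S + ε / 2) ≤ S + ε := by
  have hcont : ContinuousAt (fun η : ℝ => (1 + η) ^ p * (S + ε / 2)) 0 := by
    apply ContinuousAt.mul _ continuousAt_const
    apply ContinuousAt.rpow_const (by fun_prop)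
    left; norm_num
  have hlt : (fun η : ℝ => (1 + η) ^ p * (S + ε / 2)) 0 < S + ε := by
    simp only [add_zero, Real.one_rpow, one_mul]
    linarith
  have hev := hcont.eventually (Iio_mem_nhds hlt)
  have hev' : ∀ᶠ η : ℝ in 𝓝[>] 0, (1 + η) ^ p * (S + ε / 2) < S + ε :=
    hev.filter_mono nhdsWithin_le_nhds
  obtain ⟨η, h1, h2⟩ := (hev'.and self_mem_nhdsWithin).exists
  exact ⟨η, h2, h1.le⟩

/-- **Packet W**. -/
theorem w_of (h : StmtWMIN) : StmtW := by
  intro n p hn hp hpn hfin ε hε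
  -- a near-optimal function
  have hlt : segCap n p < segCap n p + ENNReal.ofReal (ε / 2) :=
    ENNReal.lt_add_right hfin.ne (by simp [hε])
  have hlt' := hlt
  unfold segCap at hlt
  simp only [iInf_lt_iff] at hlt
  obtain ⟨u, ⟨hu, huc, e, he, hue⟩, hen⟩ := hlt
  change en p u < segCap n p + ENNReal.ofReal (ε / 2) at hen
  set S : ℝ := (segCap n p).toReal with hS
  have hS0 : 0 ≤ S := ENNReal.toReal_nonneg
  have hSeq : segCap n p = ENNReal.ofReal S := (ENNReal.ofReal_toReal hfin.ne).symm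
  obtain ⟨η, hη, hηle⟩ := choose_eta p S ε hε
  set g : E n → ℝ := fun y => (1 + η) * u y with hg
  have hgs : ContDiff ℝ ∞ g := contDiff_const.mul hu
  have hgc : HasCompactSupport g := huc.mul_left
  obtain ⟨L, hL⟩ := hgs.lipschitzWith_of_hasCompactSupport hgc (by simp)
  have hwL : LipschitzWith L (tr g) := by
    have : LipschitzWith L (fun y => min 1 (max 0 (g y))) := (hL.const_max 0).const_min 1
    exact this
  -- the energy
  have hen' : en p (tr g) ≤ segCap n p + ENNReal.ofReal ε := by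
    have h1 : en p (tr g) ≤ ENNReal.ofReal ((1 + η) ^ p) * en p u := by
      unfold en
      rw [← lintegral_const_mul' _ _ ENNReal.ofReal_ne_top]
      refine lintegral_mono fun x => ?_
      have h2 : ‖fderiv ℝ (tr g) x‖ ≤ ‖fderiv ℝ g x‖ := fderiv_trunc g _ hgs (tr_diff g) x
      have h3 : fderiv ℝ g x = (1 + η) • fderiv ℝ u x := by
        rw [hg]
        exact fderiv_const_mul (hu.differentiable (by simp) x) _
      have h4 : ‖fderiv ℝ g x‖ = (1 + η) * ‖fderiv ℝ u x‖ := by
        rw [h3, norm_smul, Real.norm_eq_abs, abs_of_pos (by linarith)]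
      rw [h4] at h2
      have h5 : ‖fderiv ℝ (tr g) x‖ₑ ≤ ENNReal.ofReal (1 + η) * ‖fderiv ℝ u x‖ₑ := by
        rw [← ofReal_norm, ← ofReal_norm, ← ENNReal.ofReal_mul (by linarith)]
        exact ENNReal.ofReal_le_ofReal h2
      calc ‖fderiv ℝ (tr g) x‖ₑ ^ p ≤ (ENNReal.ofReal (1 + η) * ‖fderiv ℝ u x‖ₑ) ^ p :=
            ENNReal.rpow_le_rpow h5 (by linarith)
        _ = ENNReal.ofReal ((1 + η) ^ p) * ‖fderiv ℝ u x‖ₑ ^ p := by
            rw [ENNReal.mul_rpow_of_nonneg _ _ (by linarith),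
              ENNReal.ofReal_rpow_of_pos (by linarith)]
    refine h1.trans ?_
    calc ENNReal.ofReal ((1 + η) ^ p) * en p u
        ≤ ENNReal.ofReal ((1 + η) ^ p) * (segCap n p + ENNReal.ofReal (ε / 2)) := by
          gcongr
      _ = ENNReal.ofReal ((1 + η) ^ p * (S + ε / 2)) := by
          rw [hSeq, ← ENNReal.ofReal_add hS0 (by linarith), ← ENNReal.ofReal_mul (by positivity)]
      _ ≤ ENNReal.ofReal (S + ε) := ENNReal.ofReal_le_ofReal hηle
      _ = segCap n p + ENNReal.ofReal ε := by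
          rw [hSeq, ← ENNReal.ofReal_add hS0 hε.le]
  -- the segment
  set T : Set (E n) := (fun t : ℝ => t • e) '' Icc (0 : ℝ) 1 with hT
  have hTc : IsCompact T := isCompact_Icc.image (by fun_prop)
  have hopen : IsOpen {y : E n | 1 < g y} := isOpen_lt continuous_const hgs.continuous
  have hTsub : T ⊆ {y : E n | 1 < g y} := by
    rintro _ ⟨t, ht, rfl⟩
    have h1 := hue t ht
    change 1 < (1 + η) * u (t • e)
    nlinarith
  obtain ⟨d0, hd0, hd0sub⟩ := hTc.exists_cthickening_subset_open hopen hTsub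
  set d : ℝ := min d0 (1 / 2) with hd
  have hdpos : 0 < d := lt_min hd0 (by norm_num)
  have hd12 : d ≤ 1 / 2 := min_le_right _ _
  have hKeq : cthickening d T = ⋃ x ∈ T, closedBall x d :=
    hTc.cthickening_eq_biUnion_closedBall hdpos.le
  have h0T : (0 : E n) ∈ T := ⟨0, by simp, by simp⟩
  have hK1 : ∀ y : E n, ‖y‖ ≤ d → y ∈ cthickening d T := by
    intro y hy
    apply closedBall_subset_cthickening h0T d
    simpa using hy
  have hKnorm : ∀ y ∈ cthickening d T, ‖y‖ ≤ 1 + d := by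
    intro y hy
    rw [hKeq] at hy
    simp only [mem_iUnion] at hy
    obtain ⟨x, hx, hyx⟩ := hy
    obtain ⟨t, ht, rfl⟩ := hx
    rw [mem_closedBall, dist_eq_norm] at hyx
    have h1 : ‖y‖ ≤ ‖y - t • e‖ + ‖t • e‖ := by
      have := norm_add_le (y - t • e) (t • e)
      simpa using this
    have h2 : ‖t • e‖ ≤ 1 := by
      rw [norm_smul, he, mul_one, Real.norm_eq_abs, abs_of_nonneg ht.1]
      exact ht.2
    linarith
  have hKstar : ∀ y ∈ cthickening d T, ∀ t ∈ Icc (0 : ℝ) 1, t • y ∈ cthickening d T := by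
    intro y hy t ht
    rw [hKeq] at hy ⊢
    simp only [mem_iUnion] at hy ⊢
    obtain ⟨x, hx, hyx⟩ := hy
    obtain ⟨s, hs, rfl⟩ := hx
    refine ⟨t • (s • e), ⟨t * s, ⟨mul_nonneg ht.1 hs.1, ?_⟩, mul_smul t s e⟩, ?_⟩
    · calc t * s ≤ 1 * 1 := mul_le_mul ht.2 hs.2 hs.1 zero_le_one
        _ = 1 := one_mul 1
    · rw [mem_closedBall, dist_eq_norm] at hyx ⊢
      rw [← smul_sub, norm_smul, Real.norm_eq_abs, abs_of_nonneg ht.1]
      calc t * ‖y - s • e‖ ≤ 1 * d := mul_le_mul ht.2 hyx (norm_nonneg _) zero_le_one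
        _ = d := one_mul d
  have hKone : ∀ y ∈ cthickening d T, tr g y = 1 := by
    intro y hy
    have h1 : y ∈ cthickening d0 T := cthickening_mono (min_le_left _ _) T hy
    have h2 : 1 < g y := hd0sub h1
    unfold tr
    rw [max_eq_right (by linarith), min_eq_left h2.le]
  -- the support
  obtain ⟨R, hR⟩ : ∃ R : ℝ, ∀ y, R ≤ ‖y‖ → u y = 0 := by
    have hb : Bornology.IsBounded (tsupport u) := huc.isCompact.isBounded
    obtain ⟨R, hR⟩ := hb.subset_closedBall 0
    refine ⟨R + 1, fun y hy => ?_⟩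
    by_contra hne
    have : y ∈ tsupport u := subset_tsupport u hne
    have := hR this
    rw [mem_closedBall, dist_zero_right] at this
    linarith
  refine ⟨max 2 R, lt_of_lt_of_le (by norm_num) (le_max_left _ _), fun M hM => ?_⟩
  have hM2 : 2 ≤ M := (le_max_left _ _).trans hM
  have hMR : R ≤ M := (le_max_right _ _).trans hM
  obtain ⟨w, hw1, hw2, hw3, hw4, hw5, hw6⟩ := h n p hp hpn (cthickening d T) d M hdpos hK1
    (fun y hy => by have := hKnorm y hy; linarith) hKstar (tr g) ⟨L, hwL⟩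
    (fun y => ⟨le_min zero_le_one (le_max_left _ _), min_le_left _ _⟩) hKone
    (fun y hy => by
      have h1 : u y = 0 := hR y (hMR.trans hy)
      unfold tr
      simp [hg, h1])
  refine ⟨w, e, d, he, hdpos, by linarith, hw1, hw2, fun y hy => hw3 y (hK1 y hy), ?_, hw4, hw5,
    hw6.trans hen'⟩
  intro t ht
  exact hw3 _ (self_subset_cthickening T ⟨t, ht, rfl⟩)

end Pool.Agent.Helper31.RQ
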